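import Pool.Agent.helper37.CZ.SpecD

/-!
# ROW cz:KCB
-/

set_option autoImplicit false

open scoped Matrix Topology ComplexConjugate
open Filter

namespace Pool.Agent.CZ

theorem KCB_cont : Continuous lam := by
  unfold lam
  fun_prop

theorem KCB_zero {t : ℝ} (h : 1 / 2 ≤ |t|) : lam t = 0 := by
  unfold lam
  rw [max_eq_left (by linarith)]
  rfl

theorem KCB_one : lam 0 = 1 := by
  unfold lam
  simp

theorem KCB_int {k : ℤ} (hk : k ≠ 0) : lam (k : ℝ) = 0 := by
  apply KCB_zero
  have h1 : (1 : ℤ) ≤ |k| := Int.one_le_abs hk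
  have h2 : (1 : ℝ) ≤ |(k : ℝ)| := by exact_mod_cast h1
  linarith

/-- a sum over the integers which has only the term at `0` -/
theorem KCB_tsum {F : ℤ → ℂ} (h : ∀ k, k ≠ 0 → F k = 0) : ∑' k, F k = F 0 :=
  tsum_eq_single 0 h

theorem KCB (h1 : FSB_stmt) : KCB_stmt := by
  intro X _ _ α w w' h h' g hw hw' hg hh
  have hliftw : ∀ x τ, IsLift (w x) τ → IsLift (w' x) (τ + g x) := by
    intro x τ hτ
    unfold IsLift at hτ ⊢
    rw [hg x, ← hτ, ← Complex.exp_add]
    congr 1
    push_cast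
    ring
  have hliftw' : ∀ x τ', IsLift (w' x) τ' → IsLift (w x) (τ' - g x) := by
    intro x τ' hτ
    unfold IsLift at hτ ⊢
    have h2 : Complex.exp (2 * Real.pi * Complex.I * g x) ≠ 0 := Complex.exp_ne_zero _
    apply mul_left_cancel₀ h2
    rw [← hg x, ← hτ, ← Complex.exp_add]
    congr 1
    push_cast
    ring
  refine
    { cont := ?_
      inv := ?_
      loc := ?_
      row1 := ?_
      row0 := ?_
      col1 := ?_
      col0 := ?_ }
  · intro _ _
    apply KCB_cont.comp
    fun_prop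
  · intro _ _ x τ τ' _ _
    show lam (τ + h x + g (α x) - (τ' + h' x)) = lam (τ + g x - τ')
    rw [hh x]
    congr 1
    ring
  · intro R
    refine ⟨R + ‖g‖ + 1, ?_⟩
    intro _ _ x τ τ'
    have h2 : |g x| ≤ ‖g‖ := by
      rw [← Real.norm_eq_abs]
      exact g.norm_coe_le_norm x
    rw [abs_le] at h2
    constructor
    · intro h3 h4
      apply KCB_zero
      rw [abs_le] at h3
      rcases lt_abs.1 h4 with h5 | h5
      · rw [le_abs]
        right
        linarith
      · rw [le_abs]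
        left
        linarith
    · intro h3 h4
      apply KCB_zero
      rw [abs_le] at h3
      rcases lt_abs.1 h4 with h5 | h5
      · rw [le_abs]
        left
        linarith
      · rw [le_abs]
        right
        linarith
  · intro _ x τ hτ
    rw [Finset.univ_unique, Finset.sum_singleton,
      ((h1 (w' x) (hw'.1 x)).2 _ (hliftw x τ hτ)).2, KCB_tsum]
    · rw [Int.cast_zero, add_zero, sub_self, KCB_one, map_one, mul_one]
    · intro k hk
      have h2 : τ + g x - (τ + g x + (k : ℝ)) = ((-k : ℤ) : ℝ) := by push_cast; ring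
      rw [h2, KCB_int (neg_ne_zero.2 hk), zero_mul]
  · intro _ _ x τ τ₁ hτ hτ₁ hne
    have hne' : τ ≠ τ₁ := by
      rcases hne with h2 | h2
      · exact absurd (Subsingleton.elim _ _) h2
      · exact h2
    obtain ⟨m, hm⟩ := (((h1 (w x) (hw.1 x)).2 τ hτ).1 τ₁).1 hτ₁
    have hm0 : m ≠ 0 := by
      rintro rfl
      apply hne'
      rw [hm, Int.cast_zero, add_zero]
    rw [Finset.univ_unique, Finset.sum_singleton,
      ((h1 (w' x) (hw'.1 x)).2 _ (hliftw x τ hτ)).2, KCB_tsum]
    · rw [Int.cast_zero, add_zero, hm]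
      have h2 : τ + (m : ℝ) + g x - (τ + g x) = (m : ℝ) := by ring
      rw [h2, KCB_int hm0, map_zero, mul_zero]
    · intro k hk
      have h2 : τ + g x - (τ + g x + (k : ℝ)) = ((-k : ℤ) : ℝ) := by push_cast; ring
      rw [h2, KCB_int (neg_ne_zero.2 hk), zero_mul]
  · intro _ x τ' hτ
    rw [Finset.univ_unique, Finset.sum_singleton,
      ((h1 (w x) (hw.1 x)).2 _ (hliftw' x τ' hτ)).2, KCB_tsum]
    · have h2 : τ' - g x + ((0 : ℤ) : ℝ) + g x - τ' = 0 := by push_cast; ring
      rw [h2, KCB_one, map_one, mul_one]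
    · intro k hk
      have h2 : τ' - g x + (k : ℝ) + g x - τ' = ((k : ℤ) : ℝ) := by push_cast; ring
      rw [h2, KCB_int hk, zero_mul]
  · intro _ _ x τ' τ₁' hτ hτ₁ hne
    have hne' : τ' ≠ τ₁' := by
      rcases hne with h2 | h2
      · exact absurd (Subsingleton.elim _ _) h2
      · exact h2
    obtain ⟨m, hm⟩ := (((h1 (w' x) (hw'.1 x)).2 τ' hτ).1 τ₁').1 hτ₁
    have hm0 : m ≠ 0 := by
      rintro rfl
      apply hne'
      rw [hm, Int.cast_zero, add_zero]
    rw [Finset.univ_unique, Finset.sum_singleton,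
      ((h1 (w x) (hw.1 x)).2 _ (hliftw' x τ' hτ)).2, KCB_tsum]
    · have h2 : τ' - g x + ((0 : ℤ) : ℝ) + g x - τ₁' = ((-m : ℤ) : ℝ) := by
        rw [hm]
        push_cast
        ring
      rw [h2, KCB_int (neg_ne_zero.2 hm0), map_zero, mul_zero]
    · intro k hk
      have h2 : τ' - g x + (k : ℝ) + g x - τ' = ((k : ℤ) : ℝ) := by push_cast; ring
      rw [h2, KCB_int hk, zero_mul]

end Pool.Agent.CZ
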