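import Pool.Agent.helper37.CZ.SpecD

/-!
# ROW cz:OR3
-/

set_option autoImplicit false

open scoped Matrix Topology ComplexConjugate
open Filter

namespace Pool.Agent.CZ

/-- the sum over the labels and the lifts -/
theorem OR3_sum {X Q' : Type} [Fintype Q'] (h1 : FSB_stmt) (w' : Q' → ℂ) (hw : ∀ q, ‖w' q‖ = 1)
    (t' : Q' → ℝ) (ht' : ∀ q, IsLift (w' q) (t' q)) (G : Q' → ℝ → ℂ)
    (hG : {l' : Q' × ℤ | G l'.1 (t' l'.1 + l'.2) ≠ 0}.Finite) :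
    ∑' l' : Q' × ℤ, G l'.1 (t' l'.1 + l'.2) = ∑ q', fsum (w' q') (G q') := by
  have hs : Summable (fun l' : Q' × ℤ => G l'.1 (t' l'.1 + l'.2)) :=
    summable_of_hasFiniteSupport hG
  rw [hs.tsum_prod, tsum_fintype]
  apply Finset.sum_congr rfl
  intro q _
  rw [((h1 (w' q) (hw q)).2 (t' q) (ht' q)).2 (G q)]

theorem OR3 (h1 : FSB_stmt) (h2 : OR2_stmt) : OR3_stmt := by
  intro X _ _ α Q Q' _ _ w h w' h' U K φ hL hL' hF hK x t t' ht ht'
  obtain ⟨-, -, hU, -⟩ := h2 X α Q Q' w h w' h' U K φ hL hF hK x t t'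
  have hl : ∀ l : Q × ℤ, IsLift (w l.1 x) (t l.1 + l.2) := by
    intro l
    exact (((h1 (w l.1 x) ((hL l.1).1.1 x)).2 (t l.1) (ht l.1)).1 _).2 ⟨l.2, rfl⟩
  have hne : ∀ l l₁ : Q × ℤ, l ≠ l₁ → (l.1 ≠ l₁.1 ∨ t l.1 + (l.2 : ℝ) ≠ t l₁.1 + (l₁.2 : ℝ)) := by
    intro l l₁ hll
    by_cases h3 : l.1 = l₁.1
    · right
      intro h4
      apply hll
      rw [h3] at h4
      have h5 : (l.2 : ℝ) = (l₁.2 : ℝ) := by linarith
      exact Prod.ext h3 (by exact_mod_cast h5)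
    · exact Or.inl h3
  have hw' : ∀ q, ‖w' q x‖ = 1 := fun q => (hL' q).1.1 x
  refine ⟨?_, ?_, ?_, ?_⟩
  · intro l
    have h3 := hF.norm l.1 x (t l.1 + l.2) (hl l)
    rw [← h3]
    apply Finset.sum_congr rfl
    intro i _
    apply tsum_congr
    intro n
    unfold oa
    rw [sq]
  · intro l l₁ hll
    exact hF.orth l.1 l₁.1 x _ _ (hl l) (hl l₁) (hne l l₁ hll)
  · intro l
    rw [← hK.row1 l.1 x _ (hl l)]
    apply OR3_sum (X := X) h1 (fun q => w' q x) hw' t' ht'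
      (fun q' τ' => U l.1 q' x (t l.1 + l.2) τ' * conj (U l.1 q' x (t l.1 + l.2) τ'))
    apply (hU l).subset
    intro l' hl'
    exact left_ne_zero_of_mul hl'
  · intro l l₁ hll
    rw [← hK.row0 l.1 l₁.1 x _ _ (hl l) (hl l₁) (hne l l₁ hll)]
    apply OR3_sum (X := X) h1 (fun q => w' q x) hw' t' ht'
      (fun q' τ' => U l.1 q' x (t l.1 + l.2) τ' * conj (U l₁.1 q' x (t l₁.1 + l₁.2) τ'))
    apply (hU l).subset
    intro l' hl'
    exact left_ne_zero_of_mul hl'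

end Pool.Agent.CZ
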